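import Mathlib

/-!
# Extensions of `Log(ω ^ n, ≤)` without the finite model property

The witness is the logic of one Kripke frame `G`: six points `0, ..., 5` below an infinite
ladder `ℕ × ZMod 3`, in which the point `(l, t)` is to be read as the word of length `l` with
letters `t, t + 1, ...` modulo `3` and sees its factors (level `0` is a final cluster).
-/

set_option autoImplicit false

namespace Pool.Agent.Results.MP_1909e4_lc.ExtensionWithoutFMP

universe u

/-- Unimodal formulas. -/
inductive Fml : Type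
  | var : ℕ → Fml
  | bot : Fml
  | imp : Fml → Fml → Fml
  | box : Fml → Fml

/-- Truth of a formula at a point of the frame `(W, R)` under the valuation `V`. -/
def Holds {W : Type u} (R : W → W → Prop) (V : ℕ → Set W) : Fml → W → Prop
  | .var n, x => x ∈ V n
  | .bot, _ => False
  | .imp φ ψ, x => Holds R V φ x → Holds R V ψ x
  | .box φ, x => ∀ y, R x y → Holds R V φ y

/-- The logic of the frame `(W, R)`: the formulas true at all points under all valuations. -/
def Log {W : Type u} (R : W → W → Prop) : Set Fml := {φ | ∀ (V : ℕ → Set W) (x : W), Holds R V φ x}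

/-- Uniform substitution. -/
def subst (s : ℕ → Fml) : Fml → Fml
  | .var n => s n
  | .bot => .bot
  | .imp φ ψ => .imp (subst s φ) (subst s ψ)
  | .box φ => .box (subst s φ)

/-- Normal modal logics: sets of formulas containing the axioms of classical propositional logic
and the axiom `K`, closed under modus ponens, necessitation and uniform substitution. -/
structure IsNormal (L : Set Fml) : Prop where
  ax1 : ∀ φ ψ, .imp φ (.imp ψ φ) ∈ L
  ax2 : ∀ φ ψ χ, .imp (.imp φ (.imp ψ χ)) (.imp (.imp φ ψ) (.imp φ χ)) ∈ L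
  ax3 : ∀ φ, .imp (.imp (.imp φ .bot) .bot) φ ∈ L
  axK : ∀ φ ψ, .imp (.box (.imp φ ψ)) (.imp (.box φ) (.box ψ)) ∈ L
  mp : ∀ φ ψ, .imp φ ψ ∈ L → φ ∈ L → ψ ∈ L
  nec : ∀ φ, φ ∈ L → .box φ ∈ L
  sub : ∀ φ, φ ∈ L → ∀ s, subst s φ ∈ L

/-- The finite model property: each formula outside `L` is refuted in some finite frame
which validates `L`. -/
def HasFMP (L : Set Fml) : Prop :=
  ∀ φ, φ ∉ L → ∃ (X : Type) (_ : Finite X) (S : X → X → Prop), L ⊆ Log S ∧ φ ∉ Log S

/-! ### Generalities -/

theorem holds_subst {W : Type u} (R : W → W → Prop) (V : ℕ → Set W) (s : ℕ → Fml) :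
    ∀ (φ : Fml) (x : W), Holds R V (subst s φ) x ↔ Holds R (fun n => {y | Holds R V (s n) y}) φ x
  | .var _, _ => Iff.rfl
  | .bot, _ => Iff.rfl
  | .imp φ ψ, x => by
    simp only [subst, Holds, holds_subst R V s φ x, holds_subst R V s ψ x]
  | .box φ, x => by
    simp only [subst, Holds, holds_subst R V s φ]

theorem log_isNormal {W : Type u} (R : W → W → Prop) : IsNormal (Log R) where
  ax1 _ _ _ _ := fun h _ => h
  ax2 _ _ _ _ _ := fun h1 h2 h3 => h1 h3 (h2 h3)
  ax3 _ _ _ := fun h => by_contra h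
  axK _ _ _ _ := fun h1 h2 y hy => h1 y hy (h2 y hy)
  mp _ _ h1 h2 V x := h1 V x (h2 V x)
  nec _ h V _ := fun y _ => h V y
  sub φ h s V x := (holds_subst R V s φ x).2 (h _ x)

abbrev neg (φ : Fml) : Fml := .imp φ .bot
abbrev con (φ ψ : Fml) : Fml := neg (.imp φ (neg ψ))
abbrev dia (φ : Fml) : Fml := neg (.box (neg φ))

section
variable {W : Type u} {R : W → W → Prop} {V : ℕ → Set W}

theorem holds_neg {φ : Fml} {x : W} : Holds R V (neg φ) x ↔ ¬ Holds R V φ x := Iff.rfl

theorem holds_con {φ ψ : Fml} {x : W} :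
    Holds R V (con φ ψ) x ↔ Holds R V φ x ∧ Holds R V ψ x := by
  simp only [Holds]; tauto

theorem holds_dia {φ : Fml} {x : W} : Holds R V (dia φ) x ↔ ∃ y, R x y ∧ Holds R V φ y := by
  simp only [Holds]
  constructor
  · intro h
    by_contra h1
    exact h fun y hy hφ => h1 ⟨y, hy, hφ⟩
  · rintro ⟨y, hy, hφ⟩ h
    exact h y hy hφ

/-- conjunction of a list -/
def conj : List Fml → Fml
  | [] => .imp .bot .bot
  | φ :: l => con φ (conj l)

theorem holds_conj {x : W} : ∀ {l : List Fml}, Holds R V (conj l) x ↔ ∀ φ ∈ l, Holds R V φ x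
  | [] => by simp [conj, Holds]
  | φ :: l => by
    rw [conj, holds_con, holds_conj (l := l)]
    simp

end

/-! ### The frame -/

/-- The ladder. -/
def RL (x y : ℕ × ZMod 3) : Prop := y.1 = 0 ∨ ∃ d : ℕ, d + y.1 ≤ x.1 ∧ y.2 = x.2 + d

/-- The six points at the bottom. -/
def RF (i j : Fin 6) : Prop := i = 0 ∨ i = j ∨ (i ≤ j ∧ j ≤ 4)

instance : DecidableRel RF := fun i j => by unfold RF; infer_instance

/-- The frame. -/
def RG : Fin 6 ⊕ (ℕ × ZMod 3) → Fin 6 ⊕ (ℕ × ZMod 3) → Prop
  | .inl i, .inl j => RF i j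
  | .inl _, .inr _ => True
  | .inr _, .inl _ => False
  | .inr x, .inr y => RL x y

theorem RL_trans {x y z : ℕ × ZMod 3} (h1 : RL x y) (h2 : RL y z) : RL x z := by
  rcases h2 with h2 | ⟨d, hd, h2⟩
  · exact Or.inl h2
  · rcases h1 with h1 | ⟨e, he, h1⟩
    · left; omega
    · right
      refine ⟨e + d, by omega, ?_⟩
      rw [h2, h1]; push_cast; ring

theorem zmod3_cast (a : ZMod 3) : ∃ d : ℕ, d ≤ 2 ∧ (d : ZMod 3) = a := by
  refine ⟨a.val, ?_, ZMod.natCast_zmod_val a⟩
  have := ZMod.val_lt a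
  omega

theorem RL_of_two {x y : ℕ × ZMod 3} (h : y.1 + 2 ≤ x.1) : RL x y := by
  obtain ⟨d, hd, h1⟩ := zmod3_cast (y.2 - x.2)
  right
  refine ⟨d, by omega, ?_⟩
  rw [h1]; ring

theorem RL_refl (x : ℕ × ZMod 3) : RL x x := Or.inr ⟨0, by omega, by simp⟩

theorem RG_refl (x : Fin 6 ⊕ (ℕ × ZMod 3)) : RG x x := by
  rcases x with i | x
  · show RF i i
    revert i; decide
  · exact RL_refl x

/-! ### The pattern -/

def a (i : ℕ) : Fml := .var i
def b : Fml := .var 4
def m (i : ℕ) : Fml := .var (5 + i)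

/-- The pattern. -/
def pat : Fml := conj [
  dia (con (a 0) (dia (con (a 1) (dia (con (a 2) (dia (a 3))))))),
  dia (con b (conj [dia (m 0), dia (m 1), dia (m 2)])),
  .box (.imp b (.box (neg (a 0)))), .box (.imp b (.box (neg (a 1)))),
  .box (.imp b (.box (neg (a 2)))), .box (.imp b (.box (neg (a 3)))),
  .box (.imp (a 0) (.box (neg b))), .box (.imp (a 1) (.box (neg b))),
  .box (.imp (a 2) (.box (neg b))), .box (.imp (a 3) (.box (neg b))),
  .box (neg (con (a 0) (a 1))), .box (neg (con (a 0) (a 2))), .box (neg (con (a 0) (a 3))),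
  .box (neg (con (a 1) (a 2))), .box (neg (con (a 1) (a 3))), .box (neg (con (a 2) (a 3))),
  .box (.imp (m 0) (.box (neg (m 1)))), .box (.imp (m 0) (.box (neg (m 2)))),
  .box (.imp (m 1) (.box (neg (m 0)))), .box (.imp (m 1) (.box (neg (m 2)))),
  .box (.imp (m 2) (.box (neg (m 0)))), .box (.imp (m 2) (.box (neg (m 1))))]

/-- What the pattern says in a model. -/
structure Pat {W : Type u} (R : W → W → Prop) (V : ℕ → Set W) (x : W) : Prop where
  chain : ∃ y0, R x y0 ∧ y0 ∈ V 0 ∧ ∃ y1, R y0 y1 ∧ y1 ∈ V 1 ∧ ∃ y2, R y1 y2 ∧ y2 ∈ V 2 ∧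
    ∃ y3, R y2 y3 ∧ y3 ∈ V 3
  point : ∃ z, R x z ∧ z ∈ V 4 ∧ ∀ s < 3, ∃ w, R z w ∧ w ∈ V (5 + s)
  ba : ∀ y, R x y → y ∈ V 4 → ∀ z, R y z → ∀ i < 4, z ∉ V i
  ab : ∀ y, R x y → ∀ i < 4, y ∈ V i → ∀ z, R y z → z ∉ V 4
  aa : ∀ y, R x y → ∀ i < 4, ∀ j < 4, i < j → ¬ (y ∈ V i ∧ y ∈ V j)
  mm : ∀ y, R x y → ∀ i < 3, ∀ j < 3, i ≠ j → y ∈ V (5 + i) → ∀ z, R y z → z ∉ V (5 + j)

theorem holds_pat {W : Type u} {R : W → W → Prop} {V : ℕ → Set W} {x : W} :
    Holds R V pat x ↔ Pat R V x := by
  rw [pat, holds_conj]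
  simp only [List.mem_cons, List.not_mem_nil, or_false, forall_eq_or_imp, forall_eq, a, b, m]
  constructor
  · rintro ⟨h1, h2, h3, h4, h5, h6, h7, h8, h9, h10, h11, h12, h13, h14, h15, h16, h17, h18, h19,
      h20, h21, h22⟩
    refine ⟨?_, ?_, ?_, ?_, ?_, ?_⟩
    · obtain ⟨y0, r0, c0⟩ := holds_dia.1 h1
      obtain ⟨u0, c0⟩ := holds_con.1 c0
      obtain ⟨y1, r1, c1⟩ := holds_dia.1 c0
      obtain ⟨u1, c1⟩ := holds_con.1 c1
      obtain ⟨y2, r2, c2⟩ := holds_dia.1 c1
      obtain ⟨u2, c2⟩ := holds_con.1 c2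
      obtain ⟨y3, r3, c3⟩ := holds_dia.1 c2
      exact ⟨y0, r0, u0, y1, r1, u1, y2, r2, u2, y3, r3, c3⟩
    · simp only [holds_dia, holds_con, holds_conj] at h2
      obtain ⟨z, hz, hz1, hz2⟩ := h2
      refine ⟨z, hz, hz1, ?_⟩
      intro s hs
      have : s = 0 ∨ s = 1 ∨ s = 2 := by omega
      rcases this with rfl | rfl | rfl
      · exact holds_dia.1 (hz2 (dia (.var (5 + 0))) (by simp))
      · exact holds_dia.1 (hz2 (dia (.var (5 + 1))) (by simp))
      · exact holds_dia.1 (hz2 (dia (.var (5 + 2))) (by simp))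
    · intro y hy hb z hz i hi
      have : i = 0 ∨ i = 1 ∨ i = 2 ∨ i = 3 := by omega
      rcases this with rfl | rfl | rfl | rfl
      · exact h3 y hy hb z hz
      · exact h4 y hy hb z hz
      · exact h5 y hy hb z hz
      · exact h6 y hy hb z hz
    · intro y hy i hi hb z hz
      have : i = 0 ∨ i = 1 ∨ i = 2 ∨ i = 3 := by omega
      rcases this with rfl | rfl | rfl | rfl
      · exact h7 y hy hb z hz
      · exact h8 y hy hb z hz
      · exact h9 y hy hb z hz
      · exact h10 y hy hb z hz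
    · intro y hy i hi j hj hij h
      have : (i = 0 ∧ j = 1) ∨ (i = 0 ∧ j = 2) ∨ (i = 0 ∧ j = 3) ∨ (i = 1 ∧ j = 2) ∨
        (i = 1 ∧ j = 3) ∨ (i = 2 ∧ j = 3) := by omega
      rcases this with ⟨rfl, rfl⟩ | ⟨rfl, rfl⟩ | ⟨rfl, rfl⟩ | ⟨rfl, rfl⟩ | ⟨rfl, rfl⟩ | ⟨rfl, rfl⟩
      · exact h11 y hy (holds_con.2 h)
      · exact h12 y hy (holds_con.2 h)
      · exact h13 y hy (holds_con.2 h)
      · exact h14 y hy (holds_con.2 h)
      · exact h15 y hy (holds_con.2 h)
      · exact h16 y hy (holds_con.2 h)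
    · intro y hy i hi j hj hij h z hz
      have : (i = 0 ∧ j = 1) ∨ (i = 0 ∧ j = 2) ∨ (i = 1 ∧ j = 0) ∨ (i = 1 ∧ j = 2) ∨
        (i = 2 ∧ j = 0) ∨ (i = 2 ∧ j = 1) := by omega
      rcases this with ⟨rfl, rfl⟩ | ⟨rfl, rfl⟩ | ⟨rfl, rfl⟩ | ⟨rfl, rfl⟩ | ⟨rfl, rfl⟩ | ⟨rfl, rfl⟩
      · exact h17 y hy h z hz
      · exact h18 y hy h z hz
      · exact h19 y hy h z hz
      · exact h20 y hy h z hz
      · exact h21 y hy h z hz
      · exact h22 y hy h z hz
  · rintro ⟨h1, ⟨z, hz, hz1, hz2⟩, h3, h4, h5, h6⟩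
    refine ⟨?_, ?_, ?_, ?_, ?_, ?_, ?_, ?_, ?_, ?_, ?_, ?_, ?_, ?_, ?_, ?_, ?_, ?_, ?_, ?_, ?_, ?_⟩
    · obtain ⟨y0, r0, u0, y1, r1, u1, y2, r2, u2, y3, r3, c3⟩ := h1
      exact holds_dia.2 ⟨y0, r0, holds_con.2 ⟨u0, holds_dia.2 ⟨y1, r1, holds_con.2 ⟨u1,
        holds_dia.2 ⟨y2, r2, holds_con.2 ⟨u2, holds_dia.2 ⟨y3, r3, c3⟩⟩⟩⟩⟩⟩⟩
    · simp only [holds_dia, holds_con, holds_conj]
      refine ⟨z, hz, hz1, ?_⟩
      simp only [List.mem_cons, List.not_mem_nil, or_false, forall_eq_or_imp, forall_eq]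
      exact ⟨holds_dia.2 (hz2 0 (by omega)), holds_dia.2 (hz2 1 (by omega)),
        holds_dia.2 (hz2 2 (by omega))⟩
    all_goals first
      | exact fun y hy hb z hz => h3 y hy hb z hz _ (by omega)
      | exact fun y hy ha z hz => h4 y hy _ (by omega) ha z hz
      | exact fun y hy h => h5 y hy _ (by omega) _ (by omega) (by omega) (holds_con.1 h)
      | exact fun y hy h z hz => h6 y hy _ (by omega) _ (by omega) (by omega) h z hz

/-! ### The pattern in the frame -/

/-- A valuation on the frame satisfying the pattern at the root. -/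
def V0 (n : ℕ) : Set (Fin 6 ⊕ (ℕ × ZMod 3)) :=
  if n = 0 then {.inl 1} else if n = 1 then {.inl 2} else if n = 2 then {.inl 3}
  else if n = 3 then {.inl 4} else if n = 4 then {.inl 5} else if n = 5 then {.inr (1, 0)}
  else if n = 6 then {.inr (1, 1)} else {.inr (1, 2)}

def fi (i : Fin 4) : Fin 6 := ⟨i + 1, by omega⟩

theorem fi1 : ∀ i : Fin 4, ¬ RF 5 (fi i) := by decide

theorem fi2 : ∀ i : Fin 4, ¬ RF (fi i) 5 := by decide

theorem RL_one {s t : ZMod 3} : RL (1, s) (1, t) ↔ t = s := by
  unfold RL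
  constructor
  · rintro (h | ⟨d, hd, h⟩)
    · exact absurd h (by norm_num)
    · have : d = 0 := by simp only at hd; omega
      subst this
      simpa using h
  · rintro rfl
    exact Or.inr ⟨0, by norm_num, by simp⟩

theorem pat_V0 : Pat RG V0 (.inl 0) := by
  have v0 : V0 0 = {.inl 1} := rfl
  have v1 : V0 1 = {.inl 2} := rfl
  have v2 : V0 2 = {.inl 3} := rfl
  have v3 : V0 3 = {.inl 4} := rfl
  have v4 : V0 4 = {.inl 5} := rfl
  have vm : ∀ s < 3, V0 (5 + s) = {.inr (1, (s : ZMod 3))} := by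
    intro s hs
    have : s = 0 ∨ s = 1 ∨ s = 2 := by omega
    rcases this with rfl | rfl | rfl <;> simp [V0]
  have va : ∀ i : Fin 4, V0 i = {.inl (fi i)} := by
    intro i
    fin_cases i
    · exact v0
    · exact v1
    · exact v2
    · exact v3
  refine ⟨?_, ?_, ?_, ?_, ?_, ?_⟩
  · refine ⟨.inl 1, show RF 0 1 by decide, by rw [v0]; rfl, .inl 2, show RF 1 2 by decide,
      by rw [v1]; rfl, .inl 3, show RF 2 3 by decide, by rw [v2]; rfl, .inl 4,
      show RF 3 4 by decide, by rw [v3]; rfl⟩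
  · refine ⟨.inl 5, show RF 0 5 by decide, by rw [v4]; rfl, ?_⟩
    intro s hs
    exact ⟨.inr (1, (s : ZMod 3)), trivial, by rw [vm s hs]; rfl⟩
  · intro y _ hy z hz i hi hzi
    rw [v4, Set.mem_singleton_iff] at hy
    rw [va ⟨i, hi⟩, Set.mem_singleton_iff] at hzi
    subst hy
    subst hzi
    exact fi1 ⟨i, hi⟩ hz
  · intro y _ i hi hy z hz hz4
    rw [v4, Set.mem_singleton_iff] at hz4
    rw [va ⟨i, hi⟩, Set.mem_singleton_iff] at hy
    subst hy
    subst hz4
    exact fi2 ⟨i, hi⟩ hz
  · rintro y _ i hi j hj hij ⟨h1, h2⟩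
    rw [va ⟨i, hi⟩, Set.mem_singleton_iff] at h1
    rw [va ⟨j, hj⟩, Set.mem_singleton_iff] at h2
    have h3 := h1.symm.trans h2
    simp only [Sum.inl.injEq, fi, Fin.mk.injEq] at h3
    omega
  · intro y _ i hi j hj hij h1 z hz h2
    rw [vm i hi, Set.mem_singleton_iff] at h1
    rw [vm j hj, Set.mem_singleton_iff] at h2
    subst h1
    subst h2
    have h3 : ((j : ℕ) : ZMod 3) = (i : ZMod 3) := RL_one.1 hz
    rw [ZMod.natCast_eq_natCast_iff'] at h3
    omega

/-- levels of incomparable points of the ladder -/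
theorem not_RL {x y : ℕ × ZMod 3} (h : ¬ RL x y) : x.1 ≤ y.1 + 1 ∧ y.1 ≠ 0 := by
  constructor
  · by_contra h1
    exact h (RL_of_two (by omega))
  · intro h1
    exact h (Or.inl h1)

theorem RL_level {x y : ℕ × ZMod 3} (h : RL x y) : y.1 ≤ x.1 := by
  rcases h with h | ⟨d, hd, _⟩ <;> omega

theorem RL_lt {x y : ℕ × ZMod 3} (h : RL x y) (hy : y.1 ≠ 0) (hne : x ≠ y) : y.1 < x.1 := by
  rcases h with h | ⟨d, hd, h⟩
  · exact absurd h hy
  · rcases Nat.eq_zero_or_pos d with h0 | h0
    · subst h0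
      rcases Nat.lt_or_ge y.1 x.1 with h1 | h1
      · exact h1
      · exact absurd (Prod.ext (show x.1 = y.1 by omega) (by simpa using h.symm)) hne
    · omega

theorem RG_trans {x y z : Fin 6 ⊕ (ℕ × ZMod 3)} (h1 : RG x y) (h2 : RG y z) : RG x z := by
  rcases x with i | x <;> rcases y with j | y <;> rcases z with k | z
  · have : ∀ i j k : Fin 6, RF i j → RF j k → RF i k := by decide
    exact this i j k h1 h2
  · trivial
  · exact h2.elim
  · trivial
  · exact h1.elim
  · exact h1.elim
  · exact h2.elim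
  · exact RL_trans h1 h2

theorem pat_root {V : ℕ → Set (Fin 6 ⊕ (ℕ × ZMod 3))} {x : Fin 6 ⊕ (ℕ × ZMod 3)}
    (h : Pat RG V x) : x = .inl 0 := by
  obtain ⟨⟨y0, r0, u0, y1, r1, u1, y2, r2, u2, y3, r3, u3⟩, ⟨z, rz, uz, _⟩, hba, hab, haa, _⟩ := h
  have x1 := RG_trans r0 r1
  have x2 := RG_trans x1 r2
  have x3 := RG_trans x2 r3
  have n01 : y0 ≠ y1 := fun e => haa y0 r0 0 (by omega) 1 (by omega) (by omega) ⟨u0, e ▸ u1⟩
  have n02 : y0 ≠ y2 := fun e => haa y0 r0 0 (by omega) 2 (by omega) (by omega) ⟨u0, e ▸ u2⟩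
  have n03 : y0 ≠ y3 := fun e => haa y0 r0 0 (by omega) 3 (by omega) (by omega) ⟨u0, e ▸ u3⟩
  have n12 : y1 ≠ y2 := fun e => haa y1 x1 1 (by omega) 2 (by omega) (by omega) ⟨u1, e ▸ u2⟩
  have n13 : y1 ≠ y3 := fun e => haa y1 x1 1 (by omega) 3 (by omega) (by omega) ⟨u1, e ▸ u3⟩
  have n23 : y2 ≠ y3 := fun e => haa y2 x2 2 (by omega) 3 (by omega) (by omega) ⟨u2, e ▸ u3⟩
  have z0 : ¬ RG z y0 := fun e => hba z rz uz y0 e 0 (by omega) u0
  have z1 : ¬ RG z y1 := fun e => hba z rz uz y1 e 1 (by omega) u1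
  have z2 : ¬ RG z y2 := fun e => hba z rz uz y2 e 2 (by omega) u2
  have z3 : ¬ RG z y3 := fun e => hba z rz uz y3 e 3 (by omega) u3
  have w0 : ¬ RG y0 z := fun e => hab y0 r0 0 (by omega) u0 z e uz
  have w3 : ¬ RG y3 z := fun e => hab y3 x3 3 (by omega) u3 z e uz
  rcases z with z | z
  · -- the point `z` is one of the six points
    rcases y0 with y0 | y0
    swap
    · exact absurd trivial z0
    rcases y1 with y1 | y1
    swap
    · exact absurd trivial z1
    rcases y2 with y2 | y2
    swap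
    · exact absurd trivial z2
    rcases y3 with y3 | y3
    swap
    · exact absurd trivial z3
    rcases x with x | x
    swap
    · exact r0.elim
    have key : ∀ y0 y1 y2 y3 z : Fin 6, RF y0 y1 → RF y1 y2 → RF y2 y3 → y0 ≠ y1 → y0 ≠ y2 →
        y0 ≠ y3 → y1 ≠ y2 → y1 ≠ y3 → y2 ≠ y3 → ¬ RF z y0 → ¬ RF y0 z → y0 = 1 ∧ z = 5 := by
      intro y0 y1 y2 y3 z h1 h2 h3 h4 h5 h6 h7 h8 h9 h10 h11
      unfold RF at *
      omega
    obtain ⟨k1, k2⟩ := key y0 y1 y2 y3 z r1 r2 r3 (fun e => n01 (by rw [e])) (fun e => n02 (by rw [e]))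
      (fun e => n03 (by rw [e])) (fun e => n12 (by rw [e])) (fun e => n13 (by rw [e]))
      (fun e => n23 (by rw [e])) z0 w0
    subst k1
    subst k2
    have : ∀ x : Fin 6, RF x 1 → RF x 5 → x = 0 := by decide
    rw [this x r0 rz]
  · exfalso
    rcases y0 with y0 | y0
    · exact w0 trivial
    rcases y3 with y3 | y3
    · exact w3 trivial
    rcases y2 with y2 | y2
    · exact hab (.inl y2) x2 2 (by omega) u2 (.inr z) trivial uz
    rcases y1 with y1 | y1
    · exact hab (.inl y1) x1 1 (by omega) u1 (.inr z) trivial uz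
    have a0 := not_RL z0
    have a1 := not_RL z1
    have a2 := not_RL z2
    have a3 := not_RL z3
    have b0 := not_RL w0
    have b3 := not_RL w3
    have l1 := RL_lt r1 a1.2 (fun e => n01 (by rw [e]))
    have l2 := RL_lt r2 a2.2 (fun e => n12 (by rw [e]))
    have l3 := RL_lt r3 a3.2 (fun e => n23 (by rw [e]))
    omega

theorem ne1 : ∀ s : ZMod 3, s ≠ s + 1 := by decide
theorem ne2 : ∀ s : ZMod 3, s ≠ s + 2 := by decide
theorem ne3 : ∀ s : ZMod 3, s + 1 ≠ s + 2 := by decide
theorem z3a : ∀ u v : ZMod 3, v ≠ u → v ≠ u + 1 → u = v + 1 := by decide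

/-- The marks are exactly the three points of one level of the ladder. -/
theorem pat_marks {V : ℕ → Set (Fin 6 ⊕ (ℕ × ZMod 3))} (h : Pat RG V (.inl 0)) :
    ∃ (l : ℕ) (t : ZMod 3 → ZMod 3), 0 < l ∧ Function.Injective t ∧
      ∀ s y, y ∈ V (5 + s.val) ↔ y = .inr (l, t s) := by
  have seen : ∀ y, RG (.inl 0) y := by
    rintro (j | y)
    · exact Or.inl rfl
    · trivial
  have hmm : ∀ s s' : ZMod 3, s ≠ s' → ∀ y z, y ∈ V (5 + s.val) → z ∈ V (5 + s'.val) →
      ¬ RG y z := by
    intro s s' hne y z hy hz hyz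
    exact h.mm y (seen y) s.val (ZMod.val_lt s) s'.val (ZMod.val_lt s')
      (fun e => hne (ZMod.val_injective 3 e)) hy z hyz hz
  -- each mark occurs in the ladder
  obtain ⟨z, rz, uz, hz⟩ := h.point
  have hz' : ∀ s : ZMod 3, ∃ w, RG z w ∧ w ∈ V (5 + s.val) := fun s => hz s.val (ZMod.val_lt s)
  have occ : ∀ s : ZMod 3, ∃ w, (.inr w : Fin 6 ⊕ (ℕ × ZMod 3)) ∈ V (5 + s.val) := by
    intro s
    obtain ⟨w, hw1, hw2⟩ := hz' s
    obtain ⟨w', hw1', hw2'⟩ := hz' (s + 1)
    have hne : s ≠ s + 1 := ne1 s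
    rcases w with w | w
    · exfalso
      have e1 : z ≠ .inl w := by
        intro e
        rw [e] at hw1'
        exact hmm s (s + 1) hne _ _ hw2 hw2' hw1'
      rcases w' with w' | w'
      · have e2 : z ≠ .inl w' := by
          intro e
          rw [e] at hw1
          exact hmm (s + 1) s hne.symm _ _ hw2' hw2 hw1
        -- `z` is `5`, whose only successor among the six points is itself
        rcases z with z | z
        · have hz5 : z = 5 := by
            obtain ⟨y0, r0, u0, y1, r1, u1, y2, r2, u2, y3, r3, u3⟩ := h.chain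
            have z0 : ¬ RG (.inl z) y0 := fun e => h.ba _ rz uz y0 e 0 (by omega) u0
            have w0 : ¬ RG y0 (.inl z) := fun e => h.ab y0 r0 0 (by omega) u0 _ e uz
            rcases y0 with y0 | y0
            swap
            · exact absurd trivial z0
            rcases y1 with y1 | y1
            swap
            · exact absurd trivial (fun e => h.ba (.inl z) rz uz (.inr y1) e 1 (by omega) u1)
            rcases y2 with y2 | y2
            swap
            · exact absurd trivial (fun e => h.ba (.inl z) rz uz (.inr y2) e 2 (by omega) u2)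
            rcases y3 with y3 | y3
            swap
            · exact absurd trivial (fun e => h.ba (.inl z) rz uz (.inr y3) e 3 (by omega) u3)
            have n01 : y0 ≠ y1 := fun e => h.aa _ (seen _) 0 (by omega) 1 (by omega) (by omega) ⟨u0, e ▸ u1⟩
            have n02 : y0 ≠ y2 := fun e => h.aa _ (seen _) 0 (by omega) 2 (by omega) (by omega) ⟨u0, e ▸ u2⟩
            have n03 : y0 ≠ y3 := fun e => h.aa _ (seen _) 0 (by omega) 3 (by omega) (by omega) ⟨u0, e ▸ u3⟩
            have n12 : y1 ≠ y2 := fun e => h.aa _ (seen _) 1 (by omega) 2 (by omega) (by omega) ⟨u1, e ▸ u2⟩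
            have n13 : y1 ≠ y3 := fun e => h.aa _ (seen _) 1 (by omega) 3 (by omega) (by omega) ⟨u1, e ▸ u3⟩
            have n23 : y2 ≠ y3 := fun e => h.aa _ (seen _) 2 (by omega) 3 (by omega) (by omega) ⟨u2, e ▸ u3⟩
            have key : ∀ y0 y1 y2 y3 z : Fin 6, RF y0 y1 → RF y1 y2 → RF y2 y3 → y0 ≠ y1 →
                y0 ≠ y2 → y0 ≠ y3 → y1 ≠ y2 → y1 ≠ y3 → y2 ≠ y3 → ¬ RF z y0 → ¬ RF y0 z →
                z = 5 := by
              intro y0 y1 y2 y3 z h1 h2 h3 h4 h5 h6 h7 h8 h9 h10 h11
              unfold RF at *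
              omega
            exact key y0 y1 y2 y3 z r1 r2 r3 n01 n02 n03 n12 n13 n23 z0 w0
          subst hz5
          have : ∀ w : Fin 6, RF 5 w → w = 5 := by decide
          exact e1 (by rw [this w hw1])
        · exact hw1
      · exact hmm s (s + 1) hne _ _ hw2 hw2' trivial
    · exact ⟨w, hw2⟩
  -- no mark among the six points
  have noF : ∀ (s : ZMod 3) (i : Fin 6), (.inl i : Fin 6 ⊕ (ℕ × ZMod 3)) ∉ V (5 + s.val) := by
    intro s i hi
    obtain ⟨w, hw⟩ := occ (s + 1)
    have hne : s ≠ s + 1 := ne1 s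
    exact hmm s (s + 1) hne _ _ hi hw trivial
  have core : ∀ (p : ZMod 3 → ℕ × ZMod 3), (∀ s, (.inr (p s) : Fin 6 ⊕ (ℕ × ZMod 3)) ∈ V (5 + s.val)) →
      (∀ s, (p s).1 = (p 0).1) ∧ (p 0).1 ≠ 0 := by
    intro p hp
    have hn : ∀ s s', s ≠ s' → ¬ RL (p s) (p s') := fun s s' hne h1 =>
      hmm s s' hne _ _ (hp s) (hp s') h1
    have key : ∀ s s' s'' : ZMod 3, s ≠ s' → s' ≠ s'' → s ≠ s'' → ¬ (p s).1 < (p s').1 := by
      intro s s' s'' h1 h2 h3 hlt
      have a1 := not_RL (hn s s' h1)
      have a2 := not_RL (hn s' s h1.symm)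
      have a3 := not_RL (hn s s'' h3)
      have a4 := not_RL (hn s'' s h3.symm)
      have a5 := not_RL (hn s' s'' h2)
      have a6 := not_RL (hn s'' s' h2.symm)
      have e1 : (p s').1 = (p s).1 + 1 := by omega
      -- the point `p s'` one level up does not see `p s`
      have q1 : (p s).2 = (p s').2 + 2 := by
        have : (p s).2 ≠ (p s').2 := fun e => hn s' s h1.symm (Or.inr ⟨0, by omega, by simp [e]⟩)
        have h' : (p s).2 ≠ (p s').2 + 1 := fun e =>
          hn s' s h1.symm (Or.inr ⟨1, by omega, by simp [e]⟩)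
        revert this h'
        generalize (p s).2 = u
        generalize (p s').2 = v
        revert u v
        decide
      rcases Nat.lt_or_ge (p s).1 (p s'').1 with h4 | h4
      · -- `p s''` is on the upper level
        have e2 : (p s'').1 = (p s).1 + 1 := by omega
        have q2 : (p s).2 = (p s'').2 + 2 := by
          have : (p s).2 ≠ (p s'').2 := fun e => hn s'' s h3.symm (Or.inr ⟨0, by omega, by simp [e]⟩)
          have h' : (p s).2 ≠ (p s'').2 + 1 := fun e =>
            hn s'' s h3.symm (Or.inr ⟨1, by omega, by simp [e]⟩)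
          revert this h'
          generalize (p s).2 = u
          generalize (p s'').2 = v
          revert u v
          decide
        have : (p s').2 = (p s'').2 := add_right_cancel (q1.symm.trans q2)
        exact hn s' s'' h2 (Or.inr ⟨0, by omega, by simp [this]⟩)
      · -- `p s''` is on the lower level
        have e2 : (p s'').1 = (p s).1 := by omega
        have q2 : (p s'').2 = (p s').2 + 2 := by
          have : (p s'').2 ≠ (p s').2 := fun e => hn s' s'' h2 (Or.inr ⟨0, by omega, by simp [e]⟩)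
          have h' : (p s'').2 ≠ (p s').2 + 1 := fun e =>
            hn s' s'' h2 (Or.inr ⟨1, by omega, by simp [e]⟩)
          revert this h'
          generalize (p s'').2 = u
          generalize (p s').2 = v
          revert u v
          decide
        exact hn s s'' h3 (Or.inr ⟨0, by omega, by simp [q1, q2]⟩)
    have key2 : ∀ s s' : ZMod 3, ¬ (p s).1 < (p s').1 := by
      intro s s'
      by_cases hne : s = s'
      · subst hne; omega
      · obtain ⟨s'', h1, h2⟩ : ∃ s'', s' ≠ s'' ∧ s ≠ s'' := by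
          revert s s'; decide
        exact key s s' s'' hne h1 h2
    refine ⟨fun s => ?_, ?_⟩
    · have := key2 s 0
      have := key2 0 s
      omega
    · exact (not_RL (hn 1 0 (by decide))).2
  choose p hp using occ
  obtain ⟨hp1, hp2⟩ := core p hp
  refine ⟨(p 0).1, fun s => (p s).2, Nat.pos_of_ne_zero hp2, ?_, ?_⟩
  · intro s s' hss
    by_contra hne
    exact hmm s s' hne _ _ (hp s) (hp s') (Or.inr ⟨0, by rw [hp1 s, hp1 s']; omega, by
      simpa using hss.symm⟩)
  · intro s y
    constructor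
    · intro hy
      rcases y with i | y
      · exact absurd hy (noF s i)
      · have hq : ∀ s', (.inr (Function.update p s y s') : Fin 6 ⊕ (ℕ × ZMod 3)) ∈ V (5 + s'.val) := by
          intro s'
          by_cases e : s' = s
          · subst e; simpa using hy
          · rw [Function.update_of_ne e]; exact hp s'
        obtain ⟨c1, c2⟩ := core _ hq
        have lev : y.1 = (p 0).1 := by
          obtain ⟨s', hs'⟩ : ∃ s' : ZMod 3, s' ≠ s := ⟨s + 1, (ne1 s).symm⟩
          have d1 := c1 s
          have d2 := c1 s'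
          rw [Function.update_self] at d1
          rw [Function.update_of_ne hs'] at d2
          rw [d1, ← d2, hp1]
        have hne1 : y.2 ≠ (p (s + 1)).2 := by
          intro e
          have hne : s ≠ s + 1 := ne1 s
          exact hmm s (s + 1) hne _ _ hy (hp _) (Or.inr ⟨0, by rw [lev, hp1]; omega, by simp [e]⟩)
        have hne2 : y.2 ≠ (p (s + 2)).2 := by
          intro e
          have hne : s ≠ s + 2 := ne2 s
          exact hmm s (s + 2) hne _ _ hy (hp _) (Or.inr ⟨0, by rw [lev, hp1]; omega, by simp [e]⟩)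
        have i1 : (p s).2 ≠ (p (s + 1)).2 := by
          intro e
          have hne : s ≠ s + 1 := ne1 s
          exact hmm s (s + 1) hne _ _ (hp s) (hp _) (Or.inr ⟨0, by rw [hp1, hp1 s]; omega, by simp [e]⟩)
        have i2 : (p s).2 ≠ (p (s + 2)).2 := by
          intro e
          have hne : s ≠ s + 2 := ne2 s
          exact hmm s (s + 2) hne _ _ (hp s) (hp _) (Or.inr ⟨0, by rw [hp1, hp1 s]; omega, by simp [e]⟩)
        have i3 : (p (s + 1)).2 ≠ (p (s + 2)).2 := by
          intro e
          have hne : s + 1 ≠ s + 2 := ne3 s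
          exact hmm (s + 1) (s + 2) hne _ _ (hp _) (hp _)
            (Or.inr ⟨0, by rw [hp1, hp1 (s + 1)]; omega, by simp [e]⟩)
        have : y.2 = (p s).2 := by
          revert hne1 hne2 i1 i2 i3
          generalize y.2 = u
          generalize (p s).2 = v
          generalize (p (s + 1)).2 = w
          generalize (p (s + 2)).2 = x
          revert u v w x
          decide
        exact congrArg Sum.inr (Prod.ext lev this)
    · rintro rfl
      have := hp s
      have e : p s = ((p 0).1, (p s).2) := Prod.ext (hp1 s) rfl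
      rw [e] at this
      exact this

/-- The formulas defining the successive levels. -/
def P : ℕ → ZMod 3 → Fml
  | 0, s => .var (5 + s.val)
  | j + 1, s => con (neg (dia (P j s))) (con (dia (P j (s + 1))) (dia (P j (s + 2))))

theorem holds_P {V : ℕ → Set (Fin 6 ⊕ (ℕ × ZMod 3))} {l : ℕ} {t : ZMod 3 → ZMod 3} (hl : 0 < l)
    (ht : Function.Injective t) (h : ∀ s y, y ∈ V (5 + s.val) ↔ y = .inr (l, t s)) :
    ∀ (j : ℕ) (s : ZMod 3) (y : Fin 6 ⊕ (ℕ × ZMod 3)),
      Holds RG V (P j s) y ↔ y = .inr (l + j, t s + j)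
  | 0, s, y => by
    have := h s y
    simpa [P, Holds] using this
  | j + 1, s, y => by
    have ih := holds_P hl ht h j
    have hd : ∀ s', Holds RG V (dia (P j s')) y ↔ RG y (.inr (l + j, t s' + j)) := by
      intro s'
      rw [holds_dia]
      constructor
      · rintro ⟨z, hz, hz'⟩
        rw [ih] at hz'
        rw [← hz']; exact hz
      · intro hy
        exact ⟨_, hy, (ih _ _).2 rfl⟩
    rw [P, holds_con, holds_con, holds_neg, hd, hd, hd]
    rcases y with i | ⟨k, u⟩
    · constructor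
      · intro h1; exact absurd trivial h1.1
      · intro h1; exact absurd h1 (by simp)
    · have hR : ∀ v, RG (.inr (k, u)) (.inr (l + j, v)) ↔ ∃ d : ℕ, d + (l + j) ≤ k ∧ v = u + d := by
        intro v
        constructor
        · rintro (h1 | h1)
          · simp only at h1; omega
          · exact h1
        · intro h1; exact Or.inr h1
      rw [hR, hR, hR]
      have i1 : t s ≠ t (s + 1) := fun e => ne1 s (ht e)
      have i2 : t s ≠ t (s + 2) := fun e => ne2 s (ht e)
      have i3 : t (s + 1) ≠ t (s + 2) := fun e => ne3 s (ht e)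
      constructor
      · rintro ⟨h1, ⟨d1, e1, f1⟩, ⟨d2, e2, f2⟩⟩
        have k1 : l + j ≤ k := by omega
        have k2 : k ≤ l + j + 1 := by
          by_contra hk
          apply h1
          obtain ⟨d, hd, hd'⟩ := zmod3_cast (t s + j - u)
          exact ⟨d, by omega, by rw [hd']; ring⟩
        have k3 : k ≠ l + j := by
          intro e
          have : d1 = 0 := by omega
          have : d2 = 0 := by omega
          subst d1 d2
          exact i3 (add_right_cancel (f1.trans f2.symm))
        have hk : k = l + j + 1 := by omega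
        subst hk
        have g1 : t s + j ≠ u := fun e => h1 ⟨0, by omega, by simpa using e⟩
        have g2 : t s + j ≠ u + 1 := fun e => h1 ⟨1, by omega, by simpa using e⟩
        have : u = t s + j + 1 := z3a _ _ g1 g2
        rw [this]
        push_cast
        congr 2
        ring
      · intro e
        simp only [Sum.inr.injEq, Prod.mk.injEq] at e
        obtain ⟨e1, e2⟩ := e
        subst e1
        have e3 : u = t s + j + 1 := by rw [e2]; push_cast; ring
        clear e2
        refine ⟨?_, ?_, ?_⟩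
        · rintro ⟨d, hd, hd'⟩
          have : d = 0 ∨ d = 1 := by omega
          rw [e3] at hd'
          rcases this with rfl | rfl
          · revert hd'
            push_cast
            generalize t s + j = v
            revert v; decide
          · revert hd'
            push_cast
            generalize t s + j = v
            revert v; decide
        · -- `t (s + 1) + j` is `u` or `u + 1`
          have : t (s + 1) + j = u ∨ t (s + 1) + j = u + 1 := by
            have : t s + j ≠ t (s + 1) + j := fun e => i1 (add_right_cancel e)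
            revert this
            rw [e3]
            generalize t s + j = v
            generalize t (s + 1) + j = w
            revert v w; decide
          rcases this with e | e
          · exact ⟨0, by omega, by simpa using e⟩
          · exact ⟨1, by omega, by simpa using e⟩
        · have : t (s + 2) + j = u ∨ t (s + 2) + j = u + 1 := by
            have : t s + j ≠ t (s + 2) + j := fun e => i2 (add_right_cancel e)
            revert this
            rw [e3]
            generalize t s + j = v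
            generalize t (s + 2) + j = w
            revert v w; decide
          rcases this with e | e
          · exact ⟨0, by omega, by simpa using e⟩
          · exact ⟨1, by omega, by simpa using e⟩

/-- The `i`-th level formula and none of the previous ones. -/
def Q (i : ℕ) : Fml := con (P i 0) (conj ((List.range i).map fun j => neg (P j 0)))

theorem psi_mem (i : ℕ) : .imp pat (dia (Q i)) ∈ Log RG := by
  intro V x hx
  rw [holds_pat] at hx
  have := pat_root hx
  subst this
  obtain ⟨l, t, hl, ht, h⟩ := pat_marks hx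
  have hP := holds_P hl ht h
  rw [holds_dia]
  refine ⟨.inr (l + i, t 0 + i), trivial, ?_⟩
  rw [Q, holds_con, holds_conj]
  refine ⟨(hP i 0 _).2 rfl, ?_⟩
  intro φ hφ
  simp only [List.mem_map, List.mem_range] at hφ
  obtain ⟨j, hj, rfl⟩ := hφ
  rw [holds_neg, hP]
  intro e
  simp only [Sum.inr.injEq, Prod.mk.injEq] at e
  omega

theorem log_not_fmp : ¬ HasFMP (Log RG) := by
  intro H
  obtain ⟨X, hX, S, h1, h2⟩ := H (neg pat) (by
    intro h
    exact h V0 (.inl 0) (holds_pat.2 pat_V0))
  simp only [Log, Set.mem_ofPred_eq, not_forall] at h2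
  obtain ⟨V, x, hx⟩ := h2
  rw [holds_neg, not_not] at hx
  have key : ∀ i, ∃ w, Holds S V (Q i) w := by
    intro i
    obtain ⟨w, _, hw⟩ := holds_dia.1 (h1 (psi_mem i) V x hx)
    exact ⟨w, hw⟩
  choose w hw using key
  have hinj : Function.Injective w := by
    have aux : ∀ i j, i < j → w i ≠ w j := by
      intro i j hij e
      have a1 := (holds_con.1 (hw i)).1
      have a2 := holds_conj.1 (holds_con.1 (hw j)).2 (neg (P i 0))
        (List.mem_map.2 ⟨i, List.mem_range.2 hij, rfl⟩)
      rw [← e] at a2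
      exact a2 a1
    intro i j hij
    rcases lt_trichotomy i j with h | h | h
    · exact absurd hij (aux i j h)
    · exact h
    · exact absurd hij.symm (aux j i h)
  exact not_injective_infinite_finite w hinj

/-! ### The logic contains the logics of the powers of `ω` -/

/-- The map from `ω²` to the frame. -/
def f (m : ℕ) (x y : ℕ) : Fin 6 ⊕ (ℕ × ZMod 3) :=
  if y = 0 ∧ x ≤ 4 then .inl (Fin.ofNat 6 x)
  else if x = 0 ∧ y = 1 then .inl 5
  else .inr (m - ((x - 4) + (y - 1)), ((x - 4 : ℕ) : ZMod 3))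

theorem f_mono (m : ℕ) {x y x' y' : ℕ} (hx : x ≤ x') (hy : y ≤ y') : RG (f m x y) (f m x' y') := by
  unfold f
  by_cases h1 : y = 0 ∧ x ≤ 4
  · rw [if_pos h1]
    by_cases h2 : y' = 0 ∧ x' ≤ 4
    · rw [if_pos h2]
      have : ∀ i j : Fin 5, i ≤ j → RF (Fin.ofNat 6 i) (Fin.ofNat 6 j) := by decide
      exact this ⟨x, by omega⟩ ⟨x', by omega⟩ hx
    · rw [if_neg h2]
      split_ifs with h3
      · have : x = 0 := by omega
        subst this
        exact Or.inl rfl
      · trivial
  · rw [if_neg h1]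
    have h2 : ¬ (y' = 0 ∧ x' ≤ 4) := by omega
    rw [if_neg h2]
    by_cases h3 : x = 0 ∧ y = 1
    · rw [if_pos h3]
      split_ifs
      · exact Or.inr (Or.inl rfl)
      · trivial
    · rw [if_neg h3, if_neg (by omega)]
      show RL _ _
      rcases Nat.eq_zero_or_pos (m - ((x' - 4) + (y' - 1))) with h0 | h0
      · exact Or.inl h0
      · right
        refine ⟨(x' - 4) - (x - 4), ?_, ?_⟩
        · simp only; omega
        · simp only
          rw [← Nat.cast_add]
          congr 1
          omega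

/-- points of the ladder seen by `f m x y` are attained above `(x, y)` -/
theorem f_back (m : ℕ) {x y : ℕ} {w v : ℕ × ZMod 3} (h : f m x y = .inr w) (hv : RL w v) :
    ∃ x' y', x ≤ x' ∧ y ≤ y' ∧ f m x' y' = .inr v := by
  unfold f at h
  split_ifs at h with h1 h2
  have h := Sum.inr.inj h
  obtain ⟨k, u⟩ := v
  rcases hv with hv | ⟨d, hd, hv⟩
  · simp only at hv
    subst hv
    obtain ⟨d, hd, hd'⟩ := zmod3_cast (u - ((x - 4 : ℕ) : ZMod 3))
    refine ⟨max x 4 + d, y + m + 1, by omega, by omega, ?_⟩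
    unfold f
    rw [if_neg (by omega), if_neg (by omega)]
    congr 2
    · omega
    · rw [show max x 4 + d - 4 = (x - 4) + d by omega, Nat.cast_add, hd']
      ring
  · simp only at hd hv
    subst h
    simp only at hd hv
    rcases Nat.eq_zero_or_pos k with hk | hk
    · subst hk
      obtain ⟨d, hd, hd'⟩ := zmod3_cast (u - ((x - 4 : ℕ) : ZMod 3))
      refine ⟨max x 4 + d, y + m + 1, by omega, by omega, ?_⟩
      unfold f
      rw [if_neg (by omega), if_neg (by omega)]
      congr 2
      · omega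
      · rw [show max x 4 + d - 4 = (x - 4) + d by omega, Nat.cast_add, hd']
        ring
    · refine ⟨if d = 0 then x else max x 4 + d,
        max y 1 + (m - ((x - 4) + (y - 1)) - d - k), ?_, by omega, ?_⟩
      · split_ifs <;> omega
      · unfold f
        by_cases hd0 : d = 0
        · subst hd0
          rw [if_pos rfl, if_neg (by omega), if_neg (by omega)]
          congr 2
          · omega
          · rw [hv]; simp
        · rw [if_neg hd0, if_neg (by omega), if_neg (by omega)]
          congr 2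
          · omega
          · rw [hv, ← Nat.cast_add]
            congr 1
            omega

/-- positions of the six points -/
def px (i : Fin 6) : ℕ := if i = 5 then 0 else i.val
def py (i : Fin 6) : ℕ := if i = 5 then 1 else 0

theorem f_pos (m : ℕ) (i : Fin 6) : f m (px i) (py i) = .inl i := by
  fin_cases i <;> rfl

theorem pos_of_f {m x y : ℕ} {i : Fin 6} (h : f m x y = .inl i) : x = px i ∧ y = py i := by
  unfold f at h
  split_ifs at h with h1 h2
  · have h := Sum.inl.inj h
    obtain ⟨rfl, h1⟩ := h1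
    subst h
    have : x = 0 ∨ x = 1 ∨ x = 2 ∨ x = 3 ∨ x = 4 := by omega
    rcases this with rfl | rfl | rfl | rfl | rfl <;> exact ⟨rfl, rfl⟩
  · have h := Sum.inl.inj h
    obtain ⟨rfl, rfl⟩ := h2
    subst h
    exact ⟨rfl, rfl⟩

theorem pos_mono : ∀ i j : Fin 6, RF i j → px i ≤ px j ∧ py i ≤ py j := by decide

theorem pos_le : ∀ i : Fin 6, px i ≤ 4 ∧ py i ≤ 1 := by decide

theorem transfer {n : ℕ} (i0 i1 : Fin n) (hne : i0 ≠ i1)
    (V : ℕ → Set (Fin 6 ⊕ (ℕ × ZMod 3))) : ∀ φ : Fml, ∃ N : ℕ, ∀ m ≥ N, ∀ p : Fin n → ℕ,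
      Holds (fun p q : Fin n → ℕ => p ≤ q) (fun k => {q | f m (q i0) (q i1) ∈ V k}) φ p ↔
        Holds RG V φ (f m (p i0) (p i1))
  | .var k => ⟨0, fun _ _ _ => Iff.rfl⟩
  | .bot => ⟨0, fun _ _ _ => Iff.rfl⟩
  | .imp φ ψ => by
    obtain ⟨N1, h1⟩ := transfer i0 i1 hne V φ
    obtain ⟨N2, h2⟩ := transfer i0 i1 hne V ψ
    refine ⟨max N1 N2, fun m hm p => ?_⟩
    simp only [Holds, h1 m (le_of_max_le_left hm) p, h2 m (le_of_max_le_right hm) p]
  | .box φ => by
    obtain ⟨N1, h1⟩ := transfer i0 i1 hne V φ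
    have up : ∀ (m : ℕ) (p : Fin n → ℕ) (x' y' : ℕ), p i0 ≤ x' → p i1 ≤ y' →
        ∃ q : Fin n → ℕ, p ≤ q ∧ q i0 = x' ∧ q i1 = y' := by
      intro m p x' y' hx hy
      refine ⟨Function.update (Function.update p i0 x') i1 y', ?_, ?_, ?_⟩
      · intro k
        by_cases e1 : k = i1
        · subst e1; simpa using hy
        · rw [Function.update_of_ne e1]
          by_cases e0 : k = i0
          · subst e0; simpa using hx
          · rw [Function.update_of_ne e0]
      · rw [Function.update_of_ne hne]; simp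
      · simp
    have main : ∀ m ≥ N1, (∀ i : Fin 6, (∀ x' y', 4 ≤ x' → 1 ≤ y' → Holds RG V φ (f m x' y')) →
        ∀ v, Holds RG V φ (.inr v)) → ∀ p : Fin n → ℕ,
      Holds (fun p q : Fin n → ℕ => p ≤ q) (fun k => {q | f m (q i0) (q i1) ∈ V k}) (.box φ) p ↔
        Holds RG V (.box φ) (f m (p i0) (p i1)) := by
      intro m hm hw p
      constructor
      · intro H z hz
        have H' : ∀ x' y', p i0 ≤ x' → p i1 ≤ y' → Holds RG V φ (f m x' y') := by
          intro x' y' hx hy
          obtain ⟨q, hq, rfl, rfl⟩ := up m p x' y' hx hy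
          exact (h1 m hm q).1 (H q hq)
        rcases hf : f m (p i0) (p i1) with i | w
        · obtain ⟨e0, e1⟩ := pos_of_f hf
          rw [hf] at hz
          rcases z with j | v
          · obtain ⟨c0, c1⟩ := pos_mono i j hz
            rw [← f_pos m j]
            exact H' _ _ (e0 ▸ c0) (e1 ▸ c1)
          · refine hw i ?_ v
            intro x' y' hx hy
            obtain ⟨d0, d1⟩ := pos_le i
            exact H' _ _ (by omega) (by omega)
        · rw [hf] at hz
          rcases z with j | v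
          · exact hz.elim
          · obtain ⟨x', y', hx, hy, e⟩ := f_back m hf hz
            rw [← e]
            exact H' _ _ hx hy
      · intro H q hq
        exact (h1 m hm q).2 (H _ (f_mono m (hq i0) (hq i1)))
    by_cases hw : ∃ w : ℕ × ZMod 3, ¬ Holds RG V φ (.inr w)
    · obtain ⟨w, hw⟩ := hw
      refine ⟨max N1 (w.1 + 2), fun m hm p => main m (le_of_max_le_left hm) ?_ p⟩
      intro i hi v
      exfalso
      apply hw
      have e : f m 4 1 = .inr (m, 0) := by
        unfold f
        rw [if_neg (by omega), if_neg (by omega)]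
        simp
      obtain ⟨x', y', hx, hy, e'⟩ := f_back m (v := w) e
        (RL_of_two (by have := le_of_max_le_right hm; simpa using this))
      rw [← e']
      exact hi x' y' hx hy
    · push Not at hw
      exact ⟨N1, fun m hm p => main m hm (fun i _ v => hw v) p⟩

/-- **MP_1909e4_lc, Q1, negated form, for every `n ≥ 2`.**  There is a normal modal logic
extending the logic of `(ω ^ n, ≤)` which does not have the finite model property. -/
theorem result (n : ℕ) (hn : 2 ≤ n) :
    ∃ L : Set Fml, IsNormal L ∧ Log (fun p q : Fin n → ℕ => p ≤ q) ⊆ L ∧ ¬ HasFMP L := by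
  refine ⟨Log RG, log_isNormal RG, ?_, log_not_fmp⟩
  intro φ hφ V x
  let i0 : Fin n := ⟨0, by omega⟩
  let i1 : Fin n := ⟨1, by omega⟩
  have hne : i0 ≠ i1 := by simp [i0, i1]
  obtain ⟨N, hN⟩ := transfer i0 i1 hne V φ
  -- find a point of `ω ^ n` mapped to `x`
  have att : ∃ m ≥ N, ∃ x' y', f m x' y' = x := by
    rcases x with i | w
    · exact ⟨N, le_rfl, px i, py i, f_pos N i⟩
    · refine ⟨max N (w.1 + 2), le_max_left _ _, ?_⟩
      have e : f (max N (w.1 + 2)) 4 1 = .inr (max N (w.1 + 2), 0) := by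
        unfold f
        rw [if_neg (by omega), if_neg (by omega)]
        simp
      obtain ⟨x', y', _, _, e'⟩ := f_back _ (v := w) e (RL_of_two (by simp))
      exact ⟨x', y', e'⟩
  obtain ⟨m, hm, x', y', rfl⟩ := att
  have := (hN m hm (Function.update (fun _ => x') i1 y')).1 (hφ _ _)
  rw [Function.update_of_ne hne] at this
  simpa using this

end Pool.Agent.Results.MP_1909e4_lc.ExtensionWithoutFMP
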